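import Mathlib
import Pool.Agent.H23.EL.Two
import Pool.Agent.H23.PC.Wsq

/-!
# Ordinates of zeros of Dirichlet L-functions over `F_q[T]` are no rational multiples of `π / log q`

Over `F_q(T)` the L-functions are polynomials in `q ^ (-s)`, and linear independence of the ordinates `γ` means
that the `γ` in `(0, π / log q)` and `π / log q` are linearly independent over `ℚ`. For `q` not a square we prove the
part of it which concerns one ordinate, together with `L(1/2, ψ) ≠ 0`: let `ψ` be a nontrivial character of order a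
power of a prime `ℓ` modulo `Q`.

1. If `ℓ` is odd and all prime factors of `Q` have odd degree, all ordinates of zeros of `L(s, ψ)` on the critical
   line are irrational multiples of `π / log q`; in particular `L(1/2, ψ) ≠ 0`.
2. If `ℓ = 2` and `Q` is irreducible of odd degree not divisible by the characteristic `p`, the same holds. If `p`
   divides the degree of `Q`, then `p` divides the denominator of every rational `γ log q / (2 π)` (this case occurs
   for `Q = T ^ p - T - a`).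

Proof: modulo any place above `ℓ` the L-function becomes the one of the principal character modulo `Q`, so the
inverse zero `α = √q w`, `w` a root of unity, satisfies `α ^ (deg P) = 1` for a prime factor `P` of `Q`, at every
place; but for `q` not a square the places are permuted by an automorphism which changes the sign of `√q`. For `ℓ = 2`
the automorphism can be chosen to fix `w` and `ψ`, so that `- α` is an inverse zero too, whereas the reduction has
only simple zeros.
-/

set_option autoImplicit false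

namespace Pool.Agent.Results.MP_3b6604_nt.IrrationalOrdinates

open Polynomial

variable {F : Type} [Field F] [Fintype F]

/-- the L-function `∑ χ(f) u ^ deg f` (sum over the monic `f`) of the character `χ` modulo `Q`, as a polynomial in
`u`; the terms with `deg f ≥ deg Q` cancel if `χ` is not principal (`LPoly_coeff`) -/
noncomputable def LPoly (Q : F[X]) (χ : MulChar (AdjoinRoot Q) ℂ) : ℂ[X] :=
  ∑ k ∈ Finset.range Q.natDegree,
    C (∑ᶠ f ∈ {f : F[X] | f.Monic ∧ f.natDegree = k}, χ (AdjoinRoot.mk Q f)) * X ^ k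

/-- the L-function as a function of `s`, `u = q ^ (-s)` -/
noncomputable def LFun (Q : F[X]) (χ : MulChar (AdjoinRoot Q) ℂ) (s : ℂ) : ℂ :=
  (LPoly Q χ).eval ((Fintype.card F : ℂ) ^ (-s))

open Pool.Agent.H23.FF Pool.Agent.H23.PC Pool.Agent.H23.EL
open Pool.Agent.H341R2.Sharp (Mon mem_Mon)

theorem set_Mon (k : ℕ) : {R : F[X] | R.Monic ∧ R.natDegree = k} = (Mon F k : Set F[X]) := by
  ext R
  rw [Set.mem_ofPred_eq, Finset.mem_coe, mem_Mon]

theorem LPoly_eq (Q : F[X]) (χ : MulChar (AdjoinRoot Q) ℂ) : LPoly Q χ = Lp Q.natDegree (fn χ) := by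
  unfold LPoly Lp cf
  apply Finset.sum_congr rfl
  intro k _
  rw [set_Mon, finsum_mem_coe_finset]
  rfl

/-- the coefficients of the L-function -/
theorem LPoly_coeff {Q : F[X]} (hQ : Q.Monic) {χ : MulChar (AdjoinRoot Q) ℂ} (hχ : χ ≠ 1) (k : ℕ) :
    (LPoly Q χ).coeff k = ∑ᶠ f ∈ {f : F[X] | f.Monic ∧ f.natDegree = k}, χ (AdjoinRoot.mk Q f) := by
  obtain ⟨D, hD⟩ := exists_cond hQ rfl
  rw [LPoly_eq, Lp_coeff (dc_fn hQ χ) rfl (hD χ hχ).1, set_Mon, finsum_mem_coe_finset]
  rfl

omit [Fintype F] in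
theorem pow_of {P : F[X]} {ψ : MulChar (AdjoinRoot P) ℂ} {n : ℕ} (hn : ψ ^ n = 1) (f : F[X])
    (hf : IsCoprime f P) : fn ψ f ^ n = 1 := by
  have h1 : (ψ ^ n) (AdjoinRoot.mk P f) = 1 := by
    rw [hn, ← un_coe hf, MulChar.one_apply_coe]
  rw [← un_coe hf, MulChar.pow_apply_coe] at h1
  unfold fn
  rw [← un_coe hf]
  exact h1

theorem LFun_eq (Q : F[X]) (χ : MulChar (AdjoinRoot Q) ℂ) (s : ℂ) :
    LFun Q χ s = ∑ n ∈ Finset.range Q.natDegree, cf (fn χ) n * ((Fintype.card F : ℂ) ^ (-s)) ^ n := by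
  unfold LFun
  rw [LPoly_eq]
  unfold Lp
  rw [eval_finsetSum]
  apply Finset.sum_congr rfl
  intro n _
  rw [eval_mul, eval_C, eval_pow, eval_X]

/-- the point on the critical circle -/
theorem point (q : ℕ) (hq : 0 < q) (γ : ℝ) :
    ((√(q : ℝ) : ℝ) : ℂ) * (q : ℂ) ^ (-(1 / 2 + γ * Complex.I)) = Complex.exp (-(γ * Real.log q * Complex.I)) := by
  have hq' : (0 : ℝ) < q := by exact_mod_cast hq
  have hqc : (q : ℂ) ≠ 0 := by exact_mod_cast hq.ne'
  have h1 : √(q : ℝ) = Real.exp (Real.log q / 2) := by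
    rw [Real.exp_half, Real.exp_log hq']
  have h2 : Complex.log (q : ℂ) = ((Real.log q : ℝ) : ℂ) := by
    rw [Complex.ofReal_log hq'.le, Complex.ofReal_natCast]
  rw [h1, Complex.cpow_def_of_ne_zero hqc, h2, Complex.ofReal_exp, ← Complex.exp_add]
  congr 1
  push_cast
  ring

/-- a rational angle -/
theorem angle (q : ℕ) (hq : 0 < q) (γ : ℝ) (a : ℤ) (m : ℕ) (h : γ * Real.log q * m = 2 * Real.pi * a) :
    (((√(q : ℝ) : ℝ) : ℂ) * (q : ℂ) ^ (-(1 / 2 + γ * Complex.I))) ^ m = 1 := by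
  rw [point q hq γ, ← Complex.exp_nat_mul, Complex.exp_eq_one_iff]
  refine ⟨-a, ?_⟩
  have h' : (γ : ℂ) * (Real.log q : ℝ) * m = 2 * Real.pi * a := by exact_mod_cast h
  push_cast at h' ⊢
  linear_combination (-Complex.I) * h'

theorem rat_of (q : ℕ) (γ : ℝ) (h : ¬ Irrational (γ * Real.log q / Real.pi)) :
    ∃ (a : ℤ) (m : ℕ), 0 < m ∧ γ * Real.log q * m = 2 * Real.pi * a := by
  unfold Irrational at h
  rw [not_not] at h
  obtain ⟨r, hr⟩ := h
  refine ⟨r.num, 2 * r.den, by have := r.den_pos; omega, ?_⟩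
  have h1 : γ * Real.log q = Real.pi * r := by
    rw [hr]
    field_simp
  have h2 : (r : ℝ) * r.den = r.num := by exact_mod_cast r.mul_den_eq_num
  rw [h1]
  push_cast
  linear_combination (2 * Real.pi) * h2

/-- the algebraic integers -/
theorem setup {q : ℕ} (hq : 0 < q) {γ : ℝ} {a : ℤ} {m : ℕ} (hm : 0 < m)
    (h : γ * Real.log q * m = 2 * Real.pi * a) :
    ∃ s w : AI, s ^ 2 = (q : AI) ∧ w ^ m = 1 ∧
      ((s * w : AI) : ℂ) * (q : ℂ) ^ (-(1 / 2 + γ * Complex.I)) = 1 := by
  have h1 := angle q hq γ a m h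
  obtain ⟨s, hs, hs2⟩ := sqrt_int q
  obtain ⟨w, hw, hwm⟩ := exists_w hm h1
  refine ⟨s, w, hs2, hwm, ?_⟩
  push_cast
  rw [hs, hw]
  have h2 : ((√(q : ℝ) : ℝ) : ℂ) * (q : ℂ) ^ (-(1 / 2 + γ * Complex.I)) ≠ 0 := by
    intro h3
    rw [h3, zero_pow hm.ne'] at h1
    exact zero_ne_one h1
  rw [mul_right_comm, mul_inv_cancel₀ h2]

/-- **No ordinate is a rational multiple of `π / log q`.** -/
theorem result (F : Type) [Field F] [Fintype F] (hF : ¬ IsSquare (Fintype.card F)) (Q : F[X]) (hQ : Q.Monic)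
    (l j : ℕ) (hl : l.Prime) (hlF : (l : F) ≠ 0) (ψ : MulChar (AdjoinRoot Q) ℂ) (hψ : ψ ≠ 1)
    (hψl : ψ ^ l ^ j = 1) :
    (l ≠ 2 → (∀ P : F[X], P.Monic → Irreducible P → P ∣ Q → Odd P.natDegree) →
      ∀ γ : ℝ, LFun Q ψ (1 / 2 + γ * Complex.I) = 0 →
        Irrational (γ * Real.log (Fintype.card F) / Real.pi)) ∧
    (l = 2 → Irreducible Q → Odd Q.natDegree → ∀ γ : ℝ, LFun Q ψ (1 / 2 + γ * Complex.I) = 0 →
      (¬ ringChar F ∣ Q.natDegree → Irrational (γ * Real.log (Fintype.card F) / Real.pi)) ∧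
      (∀ (a : ℤ) (m : ℕ), 0 < m → γ * Real.log (Fintype.card F) * m = 2 * Real.pi * a →
        ringChar F ∣ m)) := by
  have hq0 : 0 < Fintype.card F := Fintype.card_pos
  have hnt : NT Q (fn ψ) := by
    obtain ⟨D, hD⟩ := exists_cond hQ rfl
    exact (hD ψ hψ).1
  set p := ringChar F with hp'
  have hchar : CharP F p := ringChar.charP F
  obtain ⟨e, hp, he⟩ := FiniteField.card F p
  have hlq : ¬ l ∣ Fintype.card F := by
    intro h
    rw [he] at h
    have h1 := (Nat.prime_dvd_prime_iff_eq hl hp).1 (hl.dvd_of_dvd_pow h)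
    apply hlF
    rw [h1]
    exact CharP.cast_eq_zero F p
  have heodd : Odd (e : ℕ) := by
    by_contra h
    rw [Nat.not_odd_iff_even] at h
    obtain ⟨c, hc⟩ := h
    apply hF
    exact ⟨p ^ c, by rw [he, hc, pow_add]⟩
  constructor
  · intro hl2 hodd γ hγ
    by_contra hirr
    obtain ⟨a, m, hm, ham⟩ := rat_of _ _ hirr
    obtain ⟨s, w, hs, hw, hu⟩ := setup hq0 hm ham
    rw [LFun_eq] at hγ
    refine no_angle hl hl2 rfl (dc_fn hQ ψ) (fun f hf => pow_of hψl f hf) hnt hlq hF ?_ hs hm hw hu hγ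
    intro P hP
    rw [mem_prs hQ] at hP
    exact hodd P hP.1 hP.2.1 hP.2.2
  · rintro rfl hi hdeg γ hγ
    rw [LFun_eq] at hγ
    have hdeg' : ¬ 2 ∣ Q.natDegree := by
      obtain ⟨c, hc⟩ := hdeg
      omega
    have hp2 : p ≠ 2 := by
      intro h
      apply hlF
      have h1 : ((p : ℕ) : F) = 0 := CharP.cast_eq_zero F p
      rwa [h] at h1
    have key : ∀ (a : ℤ) (m : ℕ), 0 < m → γ * Real.log (Fintype.card F) * m = 2 * Real.pi * a →
        p ∣ m ∧ p ∣ Q.natDegree := by
      intro a m hm ham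
      obtain ⟨s, w, hs, hw, hu⟩ := setup hq0 hm ham
      exact two_dvd hi rfl hdeg' (dc_fn hQ ψ) (fun f hf => pow_of hψl f hf) hnt hp hp2 he heodd hm hs hw hu hγ
    constructor
    · intro hpd
      by_contra hirr
      obtain ⟨a, m, hm, ham⟩ := rat_of _ _ hirr
      exact hpd (key a m hm ham).2
    · intro a m hm ham
      exact (key a m hm ham).1

end Pool.Agent.Results.MP_3b6604_nt.IrrationalOrdinates
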