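import Mathlib
import Pool.Agent.H5.LI.Asm

set_option autoImplicit false

/-!
# Galois groups of order 32 all of whose Artin L-functions are nonzero at `s = 1/2`

For finite Galois extensions `F/ℚ` of degree `32` with elementary abelian group the statements
`(ii)` and `(iii)` of the question are proved: for one explicit field, the field
`ℚ(√-3, √5, √-7, √-11, √17)`, and for infinitely many others, namely, for every class of quadratic
characters `χ` with prescribed local conditions outside `3, 5, 7, 11, 17`, for more than `27.9` per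
cent of the `χ` of the class there is such a field `F`, of which `χψ` is a character for some
quadratic character `ψ` modulo `3 * 5 * 7 * 11 * 17`.  For all `31` nontrivial irreducible
characters `ρ` of `Gal(F/ℚ)` the Artin L-function `L(s,ρ)` has no zero at `1/2`, and no real zero in
`(0,1)`; all of them are orthogonal, there are no unitary and no symplectic ones.

The fields are subfields of cyclotomic fields; the Artin L-function of `ρ` is the L-function of the
primitive Dirichlet character inducing `a ↦ ρ(σ_a|F)`, `σ_a(ζ) = ζ^a`.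
-/

namespace Pool.Agent.Results.MP_3b6604_nt.MultiquadraticFields

open DirichletCharacter IsCyclotomicExtension.Rat

/-- A modulus and a Dirichlet character modulo it. -/
abbrev Pair : Type := Σ N : ℕ, DirichletCharacter ℂ N

/-- The pairs `(N, χ)` with `1 ≤ N ≤ X` and `χ` a nontrivial primitive quadratic Dirichlet
character modulo `N` such that `χ(-1) = s` and `χ(p) = c p` for all `p ∈ S`. -/
def Class (S : Finset ℕ) (c : ℕ → ℤ) (s : ℤ) (X : ℕ) : Set Pair :=
  {p | p.1 ≠ 0 ∧ p.1 ≤ X ∧ p.2.IsPrimitive ∧ p.2 ^ 2 = 1 ∧ p.2 ≠ 1 ∧ p.2 (-1) = (s : ℂ) ∧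
    ∀ q ∈ S, p.2 (q : ZMod p.1) = (c q : ℂ)}

section

variable (M : ℕ) [NeZero M] {K : Type} [Field K] [NumberField K] [IsCyclotomicExtension {M} ℚ K]

/-- The Dirichlet character modulo `M` of a character `ρ` of `Gal(F/ℚ)`, `F ⊆ K = ℚ(ζ_M)`:
`a ↦ ρ(σ_a|F)`, where `σ_a(ζ) = ζ ^ a` (Mathlib's `galEquivZMod` is the isomorphism `σ_a ↦ a`). -/
noncomputable def dir (F : IntermediateField ℚ K) [Normal ℚ F] (ρ : Gal(F/ℚ) →* ℂˣ) :
    DirichletCharacter ℂ M :=
  haveI : IsGalois ℚ K := IsCyclotomicExtension.isGalois {M} ℚ K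
  MulChar.ofUnitHom ((ρ.comp (AlgEquiv.restrictNormalHom F)).comp
    (galEquivZMod M K).symm.toMonoidHom)

/-- The L-function of the primitive character of `χ` is not zero at `1/2`, and at no real point of
`(0,1)`. -/
def NoRealZero {N : ℕ} (χ : DirichletCharacter ℂ N) : Prop :=
  ∃ _ : NeZero χ.conductor, χ.primitiveCharacter.LFunction (1 / 2) ≠ 0 ∧
    ∀ s : ℝ, 0 < s → s < 1 → χ.primitiveCharacter.LFunction (s : ℂ) ≠ 0

/-- `F/ℚ` has degree `32`, and `σ * σ = 1` for all `σ ∈ Gal(F/ℚ)`. -/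
def Elementary32 (F : IntermediateField ℚ K) : Prop :=
  Module.finrank ℚ F = 32 ∧ ∀ σ : Gal(F/ℚ), σ * σ = 1

/-- For every nontrivial character `ρ` of `Gal(F/ℚ)` the L-function of the primitive Dirichlet
character of `ρ` is not zero at `1/2`, and at no real point of `(0,1)`. -/
def Central (F : IntermediateField ℚ K) [Normal ℚ F] : Prop :=
  ∀ ρ : Gal(F/ℚ) →* ℂˣ, ρ ≠ 1 → NoRealZero (dir M F ρ)

/-- `χ` is the Dirichlet character of a character of `Gal(F/ℚ)`, for a Galois extension `F/ℚ`,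
`F ⊆ K`, with `Elementary32` and `Central`. -/
def Belongs (K : Type) [Field K] [NumberField K] [IsCyclotomicExtension {M} ℚ K]
    (χ : DirichletCharacter ℂ M) : Prop :=
  ∃ (F : IntermediateField ℚ K) (_ : IsGalois ℚ F), Elementary32 F ∧ Central M F ∧
    ∃ ρ : Gal(F/ℚ) →* ℂˣ, dir M F ρ = χ

end

/-- For `χ` modulo `N`: for some multiple `M` of `N` and of `19635 = 3 * 5 * 7 * 11 * 17` and some
`ψ` modulo `19635` with `ψ² = 1` the product `χψ` (modulo `M`) belongs to a field `F` as in
`Belongs`, in every model `K` of the field of the `M`-th roots of unity. -/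
def HasField (p : Pair) : Prop :=
  ∃ (M : ℕ) (_ : NeZero M) (hN : p.1 ∣ M) (hq : 19635 ∣ M) (ψ : DirichletCharacter ℂ 19635),
    ψ ^ 2 = 1 ∧ ∀ (K : Type) [Field K] [NumberField K] [IsCyclotomicExtension {M} ℚ K],
      Belongs M K (changeLevel hN p.2 * changeLevel hq ψ)

/-- **Theorem.** (1) The field `K` of the `19635`-th roots of unity has a subfield `F` of degree
`32` over `ℚ`, whose Galois group has exponent two (this is `ℚ(√-3, √5, √-7, √-11, √17)`), such
that `L(s, ρ)` has no zero at `1/2`, and no zero in `(0,1)`, for all `31` nontrivial characters `ρ`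
of `Gal(F/ℚ)`.

(2) Let `S` be a finite set of primes different from `3, 5, 7, 11, 17`, `c p ∈ {0, 1, -1}` for
`p ∈ S` and `s ∈ {1, -1}`.  The class of the primitive quadratic characters `χ` with `χ(p) = c p`
for `p ∈ S` and `χ(-1) = s` has at least `κ X` members of conductor at most `X`, `κ > 0`, and for
all large `X` more than `27.9` per cent of them have a field `F` of degree `32` as in
`HasField`. -/
theorem result :
    (∀ (K : Type) [Field K] [NumberField K] [IsCyclotomicExtension {19635} ℚ K],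
      ∃ (F : IntermediateField ℚ K) (_ : IsGalois ℚ F), Elementary32 F ∧ Central 19635 F) ∧
    ∀ S : Finset ℕ, (∀ p ∈ S, p.Prime ∧ p ∉ ({3, 5, 7, 11, 17} : Finset ℕ)) →
      ∀ c : ℕ → ℤ, (∀ p ∈ S, c p = 0 ∨ c p = 1 ∨ c p = -1) →
      ∀ s : ℤ, (s = 1 ∨ s = -1) →
      (∃ κ : ℝ, 0 < κ ∧ ∃ X0 : ℕ, ∀ X : ℕ, X0 ≤ X →
        (Class S c s X).Finite ∧ κ * (X : ℝ) ≤ ((Class S c s X).ncard : ℝ)) ∧
      ∃ X0 : ℕ, ∀ X : ℕ, X0 ≤ X →
        (279 / 1000 : ℝ) * ((Class S c s X).ncard : ℝ) ≤
          ((Class S c s X ∩ {p | HasField p}).ncard : ℝ) := by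
  refine ⟨?_, ?_⟩
  · intro K _ _ _
    obtain ⟨G, h1, h2, h3⟩ := H5.LI.explicit_group
    obtain ⟨F, hF, h4, h5, h6, -⟩ := H5.LI.field_of_group 19635 (K := K) 5 G h1 h2 h3
    exact ⟨F, hF, ⟨h4, h5⟩, h6⟩
  · intro S hS c hc s hs
    refine ⟨?_, ?_⟩
    · obtain ⟨h1, ⟨κ, hκ, X0, h2⟩, -⟩ :=
        Pool.Agent.Results.MP_0016c7_nt.SimultaneousTwists.result S (fun p hp => (hS p hp).1)
          c hc s hs
      exact ⟨κ, hκ, X0, fun X hX => ⟨h1 X, h2 X hX⟩⟩
    · exact H5.LI.proportion S hS c hc s hs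

end Pool.Agent.Results.MP_3b6604_nt.MultiquadraticFields
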