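import Mathlib
import Pool.Agent.H23.ER.Rat

/-!
# The `2`-part of rational angles of zeros of quadratic L-functions over `F_q[T]`

Let `q` be odd, let all prime factors of `N ∈ F_q[T]` have odd degree, and let `χ` be a nontrivial quadratic character
modulo `N`. Let `1/2 + i γ` be a zero of `L(s, χ)` for which `γ log q = 2 π a / n` with coprime integers `a` and `n ≥ 1`.
Then `n` is not divisible by `4` if `q = 1` modulo `4`, and `n = 4` modulo `8` if `q = 3` modulo `4`. (Both kinds occur: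
`q = 5`, `N = T ^ 5 - T`, `γ = 0`, `n = 1`; `q = 3`, `N = T ^ 3 - T`, `n = 4`.)

Proof: let `α = q ^ (1/2 + i γ)`. In the other cases some power `α ^ E`, `E` even, is an integer `c` which is `3` modulo
`4`. Fix a place above `2`. With `E = 2 ^ j m`, `m` odd, and `t = α ^ m - 1` one has `t ^ (2 ^ j) = 2` times a unit, so
that `2` is divisible by a higher power of the place than `t`. The alternating sum of the L-functions of the
characters modulo the conductor is divisible by `2 ^ r`, and the leading coefficient of `L(s, χ)` at `α⁻¹` at the place is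
determined by induction on the number `r` of the primes of the conductor: it is not zero.
-/

set_option autoImplicit false

namespace Pool.Agent.Results.MP_3b6604_nt.QuadraticAngles

open Polynomial

variable {F : Type} [Field F] [Fintype F]

/-- the L-function `∑ χ(f) u ^ deg f` (sum over the monic `f`) of the character `χ` modulo `N`, as a polynomial in
`u`; the terms with `deg f ≥ deg N` cancel if `χ` is not principal (`LPoly_coeff`) -/
noncomputable def LPoly (N : F[X]) (χ : MulChar (AdjoinRoot N) ℂ) : ℂ[X] :=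
  ∑ k ∈ Finset.range N.natDegree,
    C (∑ᶠ f ∈ {f : F[X] | f.Monic ∧ f.natDegree = k}, χ (AdjoinRoot.mk N f)) * X ^ k

/-- the L-function as a function of `s`, `u = q ^ (-s)` -/
noncomputable def LFun (N : F[X]) (χ : MulChar (AdjoinRoot N) ℂ) (s : ℂ) : ℂ :=
  (LPoly N χ).eval ((Fintype.card F : ℂ) ^ (-s))

open Pool.Agent.H23.FF Pool.Agent.H23.PC Pool.Agent.H23.EL Pool.Agent.H23.ER
open Pool.Agent.H341R2.Sharp (Mon mem_Mon)

theorem set_Mon (k : ℕ) : {R : F[X] | R.Monic ∧ R.natDegree = k} = (Mon F k : Set F[X]) := by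
  ext R
  rw [Set.mem_ofPred_eq, Finset.mem_coe, mem_Mon]

theorem LPoly_eq (N : F[X]) (χ : MulChar (AdjoinRoot N) ℂ) : LPoly N χ = Lp N.natDegree (fn χ) := by
  unfold LPoly Lp cf
  apply Finset.sum_congr rfl
  intro k _
  rw [set_Mon, finsum_mem_coe_finset]
  rfl

/-- the coefficients of the L-function -/
theorem LPoly_coeff {N : F[X]} (hN : N.Monic) {χ : MulChar (AdjoinRoot N) ℂ} (hχ : χ ≠ 1) (k : ℕ) :
    (LPoly N χ).coeff k = ∑ᶠ f ∈ {f : F[X] | f.Monic ∧ f.natDegree = k}, χ (AdjoinRoot.mk N f) := by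
  obtain ⟨D, hD⟩ := exists_cond hN rfl
  rw [LPoly_eq, Lp_coeff (dc_fn hN χ) rfl (hD χ hχ).1, set_Mon, finsum_mem_coe_finset]
  rfl

omit [Fintype F] in
theorem pow_of {P : F[X]} {ψ : MulChar (AdjoinRoot P) ℂ} {n : ℕ} (hn : ψ ^ n = 1) (f : F[X])
    (hf : IsCoprime f P) : fn ψ f ^ n = 1 := by
  have h1 : (ψ ^ n) (AdjoinRoot.mk P f) = 1 := by
    rw [hn, ← un_coe hf, MulChar.one_apply_coe]
  rw [← un_coe hf, MulChar.pow_apply_coe] at h1
  unfold fn
  rw [← un_coe hf]
  exact h1


theorem pow_val {q : ℕ} (hq : 0 < q) {γ : ℝ} {k : ℕ} {b : ℤ} (h : 2 * (k : ℝ) * γ * Real.log q = Real.pi * b) :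
    ((q : ℂ) ^ (1 / 2 + Complex.I * (γ : ℂ))) ^ (2 * k) = (q : ℂ) ^ k * (-1) ^ b := by
  have hq' : (0 : ℝ) < q := by exact_mod_cast hq
  have hqc : (q : ℂ) ≠ 0 := by exact_mod_cast hq.ne'
  have h2 : Complex.log (q : ℂ) = ((Real.log q : ℝ) : ℂ) := by
    rw [Complex.ofReal_log hq'.le, Complex.ofReal_natCast]
  have h3 : (q : ℂ) ^ k = Complex.exp ((k : ℂ) * ((Real.log q : ℝ) : ℂ)) := by
    rw [Complex.exp_nat_mul, ← h2, Complex.exp_log hqc]
  have h4 : ((-1 : ℂ)) ^ b = Complex.exp ((b : ℂ) * (Real.pi * Complex.I)) := by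
    rw [Complex.exp_int_mul, Complex.exp_pi_mul_I]
  have h5 : 2 * (k : ℂ) * (γ : ℂ) * ((Real.log q : ℝ) : ℂ) = (Real.pi : ℂ) * (b : ℂ) := by
    exact_mod_cast congrArg (fun x : ℝ => (x : ℂ)) h
  rw [Complex.cpow_def_of_ne_zero hqc, h2, ← Complex.exp_nat_mul, h3, h4, ← Complex.exp_add]
  congr 1
  rw [Nat.cast_mul, Nat.cast_ofNat]
  linear_combination Complex.I * h5

/-- **The `2`-part of rational angles.** -/
theorem result (F : Type) [Field F] [Fintype F] (hq : Odd (Fintype.card F)) (N : F[X]) (hN : N.Monic)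
    (hodd : ∀ P : F[X], P.Monic → Irreducible P → P ∣ N → Odd P.natDegree)
    (χ : MulChar (AdjoinRoot N) ℂ) (hχ : χ ≠ 1) (hχ2 : χ ^ 2 = 1) (γ : ℝ)
    (h0 : LFun N χ (1 / 2 + Complex.I * γ) = 0) (a : ℤ) (n : ℕ) (hn : 0 < n) (han : Int.gcd a n = 1)
    (hrel : (n : ℝ) * (γ * Real.log (Fintype.card F)) = 2 * Real.pi * a) :
    (Fintype.card F % 4 = 1 → ¬ 4 ∣ n) ∧ (Fintype.card F % 4 = 3 → 4 ∣ n ∧ ¬ 8 ∣ n) := by
  classical
  have hq1' : 1 < Fintype.card F := Fintype.one_lt_card
  have hq0 : 0 < Fintype.card F := by omega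
  have hq1 : (1 : ℝ) < (Fintype.card F : ℝ) := by exact_mod_cast hq1'
  have hqc : (Fintype.card F : ℂ) ≠ 0 := by exact_mod_cast hq0.ne'
  -- the primes
  have hnt : NT N (fn χ) := by
    obtain ⟨D, hD⟩ := exists_cond hN rfl
    exact (hD χ hχ).1
  have hpm : ∀ f, IsCoprime f N → fn χ f = 1 ∨ fn χ f = -1 := by
    intro f hf
    have h1 := pow_of hχ2 f hf
    have h2 : (fn χ f - 1) * (fn χ f + 1) = 0 := by linear_combination h1
    rcases mul_eq_zero.1 h2 with h3 | h3
    · exact Or.inl (sub_eq_zero.1 h3)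
    · exact Or.inr (eq_neg_of_add_eq_zero_left h3)
  obtain ⟨S, hS, hSφ⟩ := quad_struct (dc_fn hN χ) (two_ne_of_odd hq) hpm
  have hm : ∀ P ∈ prs N, P.Monic ∧ Irreducible P ∧ P ∣ N := fun P hP => (mem_prs hN).1 hP
  have hG : ∀ P ∈ S, Good leg P :=
    fun P hP => leg_Good (two_ne_of_odd hq) (hm P (hS hP)).1 (hm P (hS hP)).2.1
  have hO : ∀ P ∈ S, Odd P.natDegree :=
    fun P hP => hodd P (hm P (hS hP)).1 (hm P (hS hP)).2.1 (hm P (hS hP)).2.2
  have hne : S.Nonempty := by
    rw [Finset.nonempty_iff_ne_empty]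
    intro h1
    obtain ⟨f, hf, hf1⟩ := hnt
    apply hf1
    rw [hSφ f hf, h1]
    unfold XS
    rw [Finset.prod_empty]
  -- the zero
  set z : ℂ := (Fintype.card F : ℂ) ^ (1 / 2 + Complex.I * (γ : ℂ)) with hz
  set u : ℂ := (Fintype.card F : ℂ) ^ (-(1 / 2 + Complex.I * (γ : ℂ))) with hu
  have hzu : z * u = 1 := by
    rw [hz, hu, ← Complex.cpow_add _ _ hqc, add_neg_cancel, Complex.cpow_zero]
  have hu1 : ‖u‖ < 1 := by
    rw [hu]
    have h1 : ‖(Fintype.card F : ℂ) ^ (-(1 / 2 + Complex.I * (γ : ℂ)))‖ =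
        (Fintype.card F : ℝ) ^ (-(1 / 2 + Complex.I * (γ : ℂ))).re :=
      Complex.norm_natCast_cpow_of_pos hq0 _
    rw [h1]
    apply Real.rpow_lt_one_of_one_lt_of_neg hq1
    simp
  have h00 : (Lp N.natDegree (fn χ)).eval u = 0 := by
    have h1 := h0
    unfold LFun at h1
    rw [LPoly_eq] at h1
    exact h1
  have key : ∀ (E : ℕ) (c : ℤ), Even E → E ≠ 0 → c % 4 = 3 → z ^ E ≠ c := by
    intro E c hE hE0 hc hzE
    exact central_ind (dc_fn hN χ) hG hne (fun P hP => (hm P (hS hP)).2.2) hSφ hu1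
      (LS_ne hG hO hne hE hE0 hc hzE hzu) h00
  have hval : ∀ (k : ℕ) (b : ℤ), 2 * (k : ℝ) * γ * Real.log (Fintype.card F) = Real.pi * b →
      z ^ (2 * k) = (Fintype.card F : ℂ) ^ k * (-1) ^ b := fun k b h => pow_val hq0 h
  have hodda : Even n → Odd a := by
    intro he
    by_contra h1
    rw [Int.not_odd_iff_even] at h1
    have h2 : (2 : ℤ) ∣ a := h1.two_dvd
    have h3 : (2 : ℤ) ∣ (n : ℤ) := by exact_mod_cast he.two_dvd
    have h4 := Int.dvd_gcd h2 h3
    rw [han] at h4
    norm_num at h4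
  -- powers of `q` modulo `4`
  have hp1 : Fintype.card F % 4 = 1 → ∀ k : ℕ, ((Fintype.card F : ℤ) ^ k) % 4 = 1 := by
    intro h1 k
    have h2 : (Fintype.card F : ℤ) ≡ 1 [ZMOD 4] := by
      unfold Int.ModEq
      omega
    have h3 := h2.pow k
    rw [one_pow] at h3
    exact h3
  have hp3 : Fintype.card F % 4 = 3 → ∀ k : ℕ, ((Fintype.card F : ℤ) ^ k) ≡ (-1) ^ k [ZMOD 4] := by
    intro h1 k
    have h2 : (Fintype.card F : ℤ) ≡ -1 [ZMOD 4] := by
      unfold Int.ModEq
      omega
    exact h2.pow k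
  refine ⟨?_, ?_⟩
  · rintro h1 ⟨n', hn'⟩
    have ha := hodda (by rw [hn']; exact ⟨2 * n', by ring⟩)
    have h2 : 2 * (n' : ℝ) * γ * Real.log (Fintype.card F) = Real.pi * a := by
      rw [hn'] at hrel
      push_cast at hrel
      linarith
    have h3 := hval n' a h2
    rw [ha.neg_one_zpow] at h3
    apply key (2 * n') (-(Fintype.card F : ℤ) ^ n') ⟨n', by ring⟩ (by omega)
    · have := hp1 h1 n'
      omega
    · rw [h3]
      push_cast
      ring
  · intro h1
    constructor
    · by_contra h2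
      rcases Nat.even_or_odd n with he | ho
      · obtain ⟨n', hn'⟩ := he
        have hn'o : Odd n' := by
          by_contra h3
          rw [Nat.not_odd_iff_even] at h3
          obtain ⟨b, hb⟩ := h3
          exact h2 ⟨b, by omega⟩
        have h3 : 2 * (n' : ℝ) * γ * Real.log (Fintype.card F) = Real.pi * ((2 * a : ℤ) : ℝ) := by
          rw [hn'] at hrel
          push_cast at hrel ⊢
          linarith
        have h4 := hval n' (2 * a) h3
        rw [(even_two_mul a).neg_one_zpow, mul_one] at h4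
        apply key (2 * n') ((Fintype.card F : ℤ) ^ n') ⟨n', by ring⟩ (by omega)
        · have h5 := hp3 h1 n'
          rw [hn'o.neg_one_pow] at h5
          unfold Int.ModEq at h5
          omega
        · rw [h4]
          push_cast
          rfl
      · have h3 : 2 * (n : ℝ) * γ * Real.log (Fintype.card F) = Real.pi * ((2 * (2 * a) : ℤ) : ℝ) := by
          push_cast
          linarith
        have h4 := hval n (2 * (2 * a)) h3
        rw [(even_two_mul (2 * a)).neg_one_zpow, mul_one] at h4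
        apply key (2 * n) ((Fintype.card F : ℤ) ^ n) ⟨n, by ring⟩ (by omega)
        · have h5 := hp3 h1 n
          rw [ho.neg_one_pow] at h5
          unfold Int.ModEq at h5
          omega
        · rw [h4]
          push_cast
          rfl
    · rintro ⟨n', hn'⟩
      have ha := hodda (by rw [hn']; exact ⟨4 * n', by ring⟩)
      have h3 : 2 * ((2 * n' : ℕ) : ℝ) * γ * Real.log (Fintype.card F) = Real.pi * a := by
        rw [hn'] at hrel
        push_cast at hrel ⊢
        linarith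
      have h4 := hval (2 * n') a h3
      rw [ha.neg_one_zpow] at h4
      apply key (2 * (2 * n')) (-(Fintype.card F : ℤ) ^ (2 * n')) ⟨2 * n', by ring⟩ (by omega)
      · have h5 := hp3 h1 (2 * n')
        rw [(even_two_mul n').neg_one_pow] at h5
        unfold Int.ModEq at h5
        omega
      · rw [h4]
        push_cast
        ring

end Pool.Agent.Results.MP_3b6604_nt.QuadraticAngles
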